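import Pool.Agent.Helper26.DA.Goals

set_option autoImplicit false

namespace Pool.Agent.Helper42.DA

open IsLocalRing Pool.Agent.Helper26.DA
open scoped Pointwise

universe w

/-- The quotient by `x` is a PID. -/
lemma pidq (R : Type w) [CommRing R] [IsDomain R] [IsNoetherianRing R]
    [IsLocalRing R] (x y : R) (h : maximalIdeal R = Ideal.span {x, y}) (hx : Prime x) :
    IsDomain (R ⧸ Ideal.span {x}) ∧ IsPrincipalIdealRing (R ⧸ Ideal.span {x}) := by
  have hp : (Ideal.span {x}).IsPrime := (Ideal.span_singleton_prime hx.ne_zero).2 hx
  have hd : IsDomain (R ⧸ Ideal.span {x}) := Ideal.Quotient.isDomain _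
  have hl : IsLocalRing (R ⧸ Ideal.span {x}) :=
    IsLocalRing.of_surjective' (Ideal.Quotient.mk (Ideal.span {x})) Ideal.Quotient.mk_surjective
  refine ⟨hd, ?_⟩
  have hm : (maximalIdeal (R ⧸ Ideal.span {x})).IsPrincipal := by
    refine ⟨⟨Ideal.Quotient.mk _ y, ?_⟩⟩
    apply le_antisymm
    · intro a ha
      obtain ⟨r, rfl⟩ := Ideal.Quotient.mk_surjective a
      have hr : r ∈ maximalIdeal R := by
        rw [mem_maximalIdeal, mem_nonunits_iff] at ha ⊢
        intro hu
        exact ha (hu.map _)
      rw [h, Ideal.mem_span_pair] at hr
      obtain ⟨p, q, hpq⟩ := hr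
      rw [← hpq, map_add, map_mul, map_mul]
      have : Ideal.Quotient.mk (Ideal.span {x}) x = 0 :=
        Ideal.Quotient.eq_zero_iff_mem.2 (Ideal.mem_span_singleton_self x)
      rw [this, mul_zero, zero_add]
      exact Ideal.mul_mem_left _ _ (Ideal.mem_span_singleton_self _)
    · rw [Submodule.span_le, Set.singleton_subset_iff]
      simp only [SetLike.mem_coe]
      rw [mem_maximalIdeal, mem_nonunits_iff]
      intro hu
      obtain ⟨z, hz⟩ := hu.exists_right_inv
      obtain ⟨t, rfl⟩ := Ideal.Quotient.mk_surjective z
      rw [← map_mul, ← map_one (Ideal.Quotient.mk (Ideal.span {x})),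
        Ideal.Quotient.eq, Ideal.mem_span_singleton] at hz
      obtain ⟨s, hs⟩ := hz
      have h1 : y * t - x * s = 1 := by rw [← hs]; ring
      have hxm : x ∈ maximalIdeal R := by
        rw [h]; exact Ideal.subset_span (by simp)
      have hym : y ∈ maximalIdeal R := by
        rw [h]; exact Ideal.subset_span (by simp)
      have h2 : (1 : R) ∈ maximalIdeal R := by
        rw [← h1]
        exact Ideal.sub_mem _ (Ideal.mul_mem_right _ _ hym) (Ideal.mul_mem_right _ _ hxm)
      exact (Ideal.ne_top_iff_one _).1 (maximalIdeal.isMaximal R).ne_top h2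
  exact ((tfae_of_isNoetherianRing_of_isLocalRing_of_isDomain (R := R ⧸ Ideal.span {x})).out 0 4).2
    hm

/-- The generator `x` is prime, unless the maximal ideal is principal. -/
lemma primex (R : Type w) [CommRing R] [IsDomain R] [UniqueFactorizationMonoid R]
    [IsNoetherianRing R] [IsLocalRing R] (x y : R) (h : maximalIdeal R = Ideal.span {x, y})
    (hn : ¬ (maximalIdeal R).IsPrincipal) : Prime x := by
  have hxm : x ∈ maximalIdeal R := by
    rw [h]; exact Ideal.subset_span (by simp)
  have hx2 : x ∉ maximalIdeal R * maximalIdeal R := by
    intro hx2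
    apply hn
    have hle : maximalIdeal R ≤ Ideal.span {y} := by
      apply Submodule.le_of_le_smul_of_le_jacobson_bot (I := maximalIdeal R)
        (IsNoetherian.noetherian _)
      · exact (IsLocalRing.jacobson_eq_maximalIdeal ⊥ bot_ne_top).ge
      · conv_lhs => rw [h]
        rw [Ideal.span_le]
        intro a ha
        rcases ha with rfl | ha
        · exact Submodule.mem_sup_right hx2
        · rw [Set.mem_singleton_iff] at ha
          subst ha
          exact Submodule.mem_sup_left (Ideal.mem_span_singleton_self _)
    refine ⟨⟨y, le_antisymm hle ?_⟩⟩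
    rw [h]
    exact Submodule.span_mono (by simp)
  rw [← UniqueFactorizationMonoid.irreducible_iff_prime]
  refine ⟨hxm, ?_⟩
  intro a b hab
  by_contra hcon
  rw [not_or] at hcon
  apply hx2
  rw [hab]
  exact Ideal.mul_mem_mul hcon.1 hcon.2

theorem gFRE : G_FRE.{w} := by
  intro R _ _ _ _ _ x y h n f hf
  classical
  set φ : (Fin (n + 1) → R) →ₗ[R] R := Fintype.linearCombination R f with hφ
  have hφa : ∀ c, φ c = ∑ k, c k * f k := by
    intro c
    simp [hφ, Fintype.linearCombination_apply]
  set Z : Submodule R (Fin (n + 1) → R) := LinearMap.ker φ with hZ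
  have hfree : Module.Free R Z := by
    by_cases hn : (maximalIdeal R).IsPrincipal
    · have : IsPrincipalIdealRing R :=
        ((tfae_of_isNoetherianRing_of_isLocalRing_of_isDomain (R := R)).out 0 4).2 hn
      infer_instance
    · have hx := primex R x y h hn
      obtain ⟨hd, hp⟩ := pidq R x y h hx
      have hxj : x ∈ (⊥ : Ideal R).jacobson := by
        rw [IsLocalRing.jacobson_eq_maximalIdeal ⊥ bot_ne_top, h]
        exact Ideal.subset_span (by simp)
      have hreg : IsSMulRegular Z x := by
        intro a b hab
        simp only at hab
        exact smul_right_injective _ hx.ne_zero hab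
      have hfp : Module.FinitePresentation R Z := Module.finitePresentation_of_finite R Z
      rw [← Module.free_quotSMulTop_iff_free R Z hxj hreg]
      -- the embedding
      let q : (Fin (n + 1) → R) →ₗ[R] (Fin (n + 1) → R ⧸ Ideal.span {x}) :=
        LinearMap.pi (fun i => (Submodule.mkQ (Ideal.span {x})).comp (LinearMap.proj i))
      let g : Z →ₗ[R] (Fin (n + 1) → R ⧸ Ideal.span {x}) := q.comp Z.subtype
      have hg : ∀ z : Z, g z = 0 ↔ z ∈ x • (⊤ : Submodule R Z) := by
        intro z
        constructor
        · intro hz
          have h1 : ∀ i, ∃ r, (z : Fin (n + 1) → R) i = x * r := by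
            intro i
            have h2 : g z i = 0 := by rw [hz]; rfl
            have h3 : (Ideal.Quotient.mk (Ideal.span {x})) ((z : Fin (n + 1) → R) i) = 0 := h2
            rw [Ideal.Quotient.eq_zero_iff_mem, Ideal.mem_span_singleton] at h3
            exact h3
          choose r hr using h1
          have h4 : r ∈ Z := by
            rw [hZ, LinearMap.mem_ker]
            have h5 : φ (z : Fin (n + 1) → R) = 0 := z.2
            have h6 : (z : Fin (n + 1) → R) = x • r := by
              funext i; rw [hr i]; rfl
            rw [h6, map_smul, smul_eq_mul] at h5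
            rcases mul_eq_zero.1 h5 with h7 | h7
            · exact absurd h7 hx.ne_zero
            · exact h7
          rw [Submodule.mem_smul_pointwise_iff_exists]
          refine ⟨⟨r, h4⟩, Submodule.mem_top, ?_⟩
          ext i
          simp [hr i]
        · intro hz
          rw [Submodule.mem_smul_pointwise_iff_exists] at hz
          obtain ⟨b, _, rfl⟩ := hz
          rw [map_smul]
          funext i
          have : Ideal.Quotient.mk (Ideal.span {x}) x = 0 :=
            Ideal.Quotient.eq_zero_iff_mem.2 (Ideal.mem_span_singleton_self x)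
          have h8 : (x • g b) i = Ideal.Quotient.mk (Ideal.span {x}) x * g b i := rfl
          rw [h8, this, zero_mul]
          rfl
      let G : QuotSMulTop x Z →ₗ[R] (Fin (n + 1) → R ⧸ Ideal.span {x}) :=
        Submodule.liftQ _ g (by
          intro z hz
          exact (hg z).2 hz)
      have hGi : Function.Injective G := by
        rw [← LinearMap.ker_eq_bot]
        apply Submodule.ker_liftQ_eq_bot
        intro z hz
        exact (hg z).1 hz
      let G' : QuotSMulTop x Z →ₗ[R ⧸ Ideal.span {x}] (Fin (n + 1) → R ⧸ Ideal.span {x}) :=
        LinearMap.extendScalarsOfSurjective Ideal.Quotient.mk_surjective G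
      have hGi' : Function.Injective G' := hGi
      have hfr : Module.Free (R ⧸ Ideal.span {x}) (LinearMap.range G') := inferInstance
      exact Module.Free.of_equiv (LinearEquiv.ofInjective G' hGi').symm
  -- the rank
  have hrank : Module.finrank R Z = n := by
    have h1 := Submodule.finrank_quotient_add_finrank (R := R) Z
    have h2 : Module.finrank R ((Fin (n + 1) → R) ⧸ Z) = Module.finrank R (LinearMap.range φ) :=
      LinearEquiv.finrank_eq φ.quotKerEquivRange
    have h3 : Module.finrank R (LinearMap.range φ) = 1 := by
      apply le_antisymm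
      · have := Submodule.finrank_le (LinearMap.range φ)
        rwa [Module.finrank_self] at this
      · have hne : Nontrivial (LinearMap.range φ) := by
          rw [Submodule.nontrivial_iff_ne_bot]
          intro hb
          apply hf
          funext k
          have h4 : φ (Pi.single k 1) ∈ LinearMap.range φ := ⟨_, rfl⟩
          rw [hb, Submodule.mem_bot, hφa] at h4
          rw [Finset.sum_eq_single k] at h4
          · simpa using h4
          · intro b _ hb
            simp [hb]
          · intro hk
            exact absurd (Finset.mem_univ k) hk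
        exact Module.finrank_pos
    rw [h2, h3, Module.finrank_fin_fun] at h1
    omega
  let b : Module.Basis (Fin n) R Z := (Module.finBasis R Z).reindex (finCongr hrank)
  refine ⟨fun i => (b i : Fin (n + 1) → R), ?_, ?_⟩
  · have := b.linearIndependent
    exact this.map' Z.subtype (Submodule.ker_subtype Z)
  · intro c
    rw [← hφa]
    have h1 : Submodule.span R (Set.range fun i => (b i : Fin (n + 1) → R)) = Z := by
      have h2 : (Set.range fun i => (b i : Fin (n + 1) → R)) = Z.subtype '' (Set.range b) := by
        rw [← Set.range_comp]; rfl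
      rw [h2, Submodule.span_image, b.span_eq, Submodule.map_top, Submodule.range_subtype]
    rw [h1, hZ, LinearMap.mem_ker]

end Pool.Agent.Helper42.DA
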